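import Mathlib
import Pool.Agent.Q209.RN.Noise

open MeasureTheory ProbabilityTheory Filter
open Pool.Agent.Q209

namespace Pool.Agent.Results.MP_adc20b_pr.NotEvanescent

noncomputable section

/-- A reaction `y → y'` on `d` species with rate constant `c`. -/
structure Reaction (d : ℕ) where
  /-- source complex `y` -/
  src : Fin d → ℕ
  /-- target complex `y'` -/
  tgt : Fin d → ℕ
  /-- rate constant -/
  c : ℝ

/-- Mass-action rate `c ∏_m ∏_{j < y_m} (x_m - j)`. -/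
def rate {d : ℕ} (r : Reaction d) (x : Fin d → ℕ) : ℝ :=
  r.c * ∏ m, ∏ j ∈ Finset.range (r.src m), ((x m : ℝ) - j)

/-- State `x + y' - y` after the reaction (used only where `x ≥ y`, as otherwise the rate is
zero). -/
def fire {d : ℕ} (r : Reaction d) (x : Fin d → ℕ) : Fin d → ℕ :=
  fun m => x m + r.tgt m - r.src m

/-- The source complex is `0` or a unit vector. -/
def AtMostMono {d : ℕ} (r : Reaction d) : Prop := r.src = 0 ∨ ∃ l, r.src = Pi.single l 1

/-- The matrix `M` of an at-most-monomolecular network: `M m l` is the sum of `c (y'_m - y_m)` over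
the reactions with source `e_l`. -/
def driftMatrix {d : ℕ} (R : List (Reaction d)) : Matrix (Fin d) (Fin d) ℝ :=
  fun m l => (R.map fun r =>
    if r.src = Pi.single l 1 then r.c * ((r.tgt m : ℝ) - (r.src m : ℝ)) else 0).sum

/-- `Q` is the rate matrix of an irreducible Markov chain on `Fin n`. -/
def IsIrredRateMatrix {n : ℕ} (Q : Matrix (Fin n) (Fin n) ℝ) : Prop :=
  (∀ i j, i ≠ j → 0 ≤ Q i j) ∧ (∀ i, ∑ j, Q i j = 0) ∧
    ∀ i j, Relation.ReflTransGen (fun a b => a ≠ b ∧ 0 < Q a b) i j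

/-- States of the mixed process: species counts and environment. -/
abbrev State (d n : ℕ) := (Fin d → ℕ) × Fin n

/-- The jumps of the mixed process out of a state, with their rates. -/
def transitions {d n : ℕ} (R : Fin n → List (Reaction d)) (Q : Matrix (Fin n) (Fin n) ℝ)
    (κ : ℝ) (z : State d n) : List (ℝ × State d n) :=
  ((R z.2).map fun r => (rate r z.1, (fire r z.1, z.2))) ++
    (((List.finRange n).filter fun j => j ≠ z.2).map fun j => (κ * Q z.2 j, (z.1, j)))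

/-- Total jump rate out of a state. -/
def totalRate {d n : ℕ} (R : Fin n → List (Reaction d)) (Q : Matrix (Fin n) (Fin n) ℝ)
    (κ : ℝ) (z : State d n) : ℝ := ((transitions R Q κ z).map Prod.fst).sum

/-- The jump chain of the mixed process started at `z`, driven by the noise `ω` (the first
coordinates `(ω k).1`, uniform on `[0,1)`, choose the jumps proportionally to their rates). -/
def jumpChain {d n : ℕ} (R : Fin n → List (Reaction d)) (Q : Matrix (Fin n) (Fin n) ℝ)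
    (κ : ℝ) (z : State d n) (ω : ℕ → ℝ × ℝ) (k : ℕ) : State d n :=
  RN.chain (fun s (p : ℝ × ℝ) => RN.jump (transitions R Q κ s) s p.1) z ω k

/-- The `k`-th jump time: the holding times are `(ω j).2 / totalRate`, where the `(ω j).2` are
exponential of mean one. -/
def jumpTime {d n : ℕ} (R : Fin n → List (Reaction d)) (Q : Matrix (Fin n) (Fin n) ℝ)
    (κ : ℝ) (z : State d n) (ω : ℕ → ℝ × ℝ) (k : ℕ) : ℝ :=
  ∑ j ∈ Finset.range k, (ω j).2 / totalRate R Q κ (jumpChain R Q κ z ω j)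

/-- The event `‖X(t)‖₁ → ∞` as `t → ∞`. Here `X(t)` is the species count of the `k`-th state of the
jump chain for `t` between the `k`-th and `(k+1)`-st jump times (for all later `t` if that state is
absorbing). Explosion, if it occurred, would be counted as belonging to this event. -/
def Escapes {d n : ℕ} (R : Fin n → List (Reaction d)) (Q : Matrix (Fin n) (Fin n) ℝ)
    (κ : ℝ) (z : State d n) (ω : ℕ → ℝ × ℝ) : Prop :=
  ∀ B : ℕ, ∃ t0 : ℝ, ∀ t ≥ t0, ∀ k : ℕ, jumpTime R Q κ z ω k ≤ t →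
    (t < jumpTime R Q κ z ω (k + 1) ∨ totalRate R Q κ (jumpChain R Q κ z ω k) = 0) →
    B ≤ ∑ m, (jumpChain R Q κ z ω k).1 m

/-- The state `z` is evanescent for the mixed process: from `z`, `‖X(t)‖₁ → ∞` with positive
probability. The noise is i.i.d. with law `RN.noise`, uniform on `[0,1)` times exponential. -/
def Evanescent {d n : ℕ} (R : Fin n → List (Reaction d)) (Q : Matrix (Fin n) (Fin n) ℝ)
    (κ : ℝ) (z : State d n) : Prop :=
  0 < (Measure.infinitePi fun _ : ℕ => RN.noise) {ω | Escapes R Q κ z ω}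

/-! ### The example -/

/-- environment `0`: `S₀ → 2 S₀`, `S₁ → S₀`, `S₂ → 0` (rates `1, 1, 2`) -/
def R0 : List (Reaction 3) :=
  [⟨![1, 0, 0], ![2, 0, 0], 1⟩, ⟨![0, 1, 0], ![1, 0, 0], 1⟩, ⟨![0, 0, 1], ![0, 0, 0], 2⟩]

/-- environment `1`: `S₀ → 0`, `S₁ → S₂`, `S₂ → 2 S₂` (rates `2, 1, 1`) -/
def R1 : List (Reaction 3) :=
  [⟨![1, 0, 0], ![0, 0, 0], 2⟩, ⟨![0, 1, 0], ![0, 0, 1], 1⟩, ⟨![0, 0, 1], ![0, 0, 2], 1⟩]

/-- both environments -/
def RR : Fin 2 → List (Reaction 3) := ![R0, R1]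

/-- switching at rate one (times `κ`) in both directions -/
def QQ : Matrix (Fin 2) (Fin 2) ℝ := !![-1, 1; 1, -1]

theorem trans0 (κ : ℝ) (x : Fin 3 → ℕ) : transitions RR QQ κ (x, 0) =
    [((x 0 : ℝ), (![x 0 + 1, x 1, x 2], 0)), ((x 1 : ℝ), (![x 0 + 1, x 1 - 1, x 2], 0)),
      (2 * (x 2 : ℝ), (![x 0, x 1, x 2 - 1], 0)), (κ, (x, 1))] := by
  have e1 : (List.finRange 2).filter (fun j => j ≠ (0 : Fin 2)) = [1] := by decide
  have f1 : fire ⟨![1, 0, 0], ![2, 0, 0], 1⟩ x = ![x 0 + 1, x 1, x 2] := by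
    ext m; fin_cases m <;> simp [fire]
  have f2 : fire ⟨![0, 1, 0], ![1, 0, 0], 1⟩ x = ![x 0 + 1, x 1 - 1, x 2] := by
    ext m; fin_cases m <;> simp [fire]
  have f3 : fire ⟨![0, 0, 1], ![0, 0, 0], 2⟩ x = ![x 0, x 1, x 2 - 1] := by
    ext m; fin_cases m <;> simp [fire]
  have r1 : rate ⟨![1, 0, 0], ![2, 0, 0], 1⟩ x = x 0 := by
    simp [rate, Fin.prod_univ_three]
  have r2 : rate ⟨![0, 1, 0], ![1, 0, 0], 1⟩ x = x 1 := by
    simp [rate, Fin.prod_univ_three]
  have r3 : rate ⟨![0, 0, 1], ![0, 0, 0], 2⟩ x = 2 * x 2 := by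
    simp [rate, Fin.prod_univ_three]
  simp only [transitions]
  rw [e1]
  simp [RR, R0, QQ, f1, f2, f3, r1, r2, r3]

theorem trans1 (κ : ℝ) (x : Fin 3 → ℕ) : transitions RR QQ κ (x, 1) =
    [(2 * (x 0 : ℝ), (![x 0 - 1, x 1, x 2], 1)), ((x 1 : ℝ), (![x 0, x 1 - 1, x 2 + 1], 1)),
      ((x 2 : ℝ), (![x 0, x 1, x 2 + 1], 1)), (κ, (x, 0))] := by
  have e1 : (List.finRange 2).filter (fun j => j ≠ (1 : Fin 2)) = [0] := by decide
  have f1 : fire ⟨![1, 0, 0], ![0, 0, 0], 2⟩ x = ![x 0 - 1, x 1, x 2] := by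
    ext m; fin_cases m <;> simp [fire]
  have f2 : fire ⟨![0, 1, 0], ![0, 0, 1], 1⟩ x = ![x 0, x 1 - 1, x 2 + 1] := by
    ext m; fin_cases m <;> simp [fire]
  have f3 : fire ⟨![0, 0, 1], ![0, 0, 2], 1⟩ x = ![x 0, x 1, x 2 + 1] := by
    ext m; fin_cases m <;> simp [fire]
  have r1 : rate ⟨![1, 0, 0], ![0, 0, 0], 2⟩ x = 2 * x 0 := by
    simp [rate, Fin.prod_univ_three]
  have r2 : rate ⟨![0, 1, 0], ![0, 0, 1], 1⟩ x = x 1 := by
    simp [rate, Fin.prod_univ_three]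
  have r3 : rate ⟨![0, 0, 1], ![0, 0, 2], 1⟩ x = x 2 := by
    simp [rate, Fin.prod_univ_three]
  simp only [transitions]
  rw [e1]
  simp [RR, R1, QQ, f1, f2, f3, r1, r2, r3]

/-! ### Powers -/

theorem pw_succ {θ : ℝ} (h0 : 0 < θ) (h1 : θ ≤ 1) (n : ℕ) :
    (n : ℝ) * (((n : ℝ) + 1) ^ θ - (n : ℝ) ^ θ) ≤ θ * (n : ℝ) ^ θ := by
  rcases Nat.eq_zero_or_pos n with hn | hn
  · subst hn
    simp [Real.zero_rpow h0.ne']
  · have hn' : (0 : ℝ) < n := by exact_mod_cast hn
    have e : ((n : ℝ) + 1) ^ θ = (n : ℝ) ^ θ * (1 + 1 / n) ^ θ := by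
      rw [← Real.mul_rpow hn'.le (by positivity)]
      congr 1
      field_simp
    have h2 := rpow_one_add_le_one_add_mul_self (s := 1 / (n : ℝ))
      (by have : (0 : ℝ) < 1 / n := by positivity
          linarith) h0.le h1
    have h3 : 0 ≤ (n : ℝ) ^ θ := by positivity
    rw [e]
    have h4 : (n : ℝ) * ((n : ℝ) ^ θ * (1 + 1 / n) ^ θ - (n : ℝ) ^ θ) =
        (n : ℝ) * ((n : ℝ) ^ θ * ((1 + 1 / n) ^ θ - 1)) := by ring
    rw [h4]
    calc (n : ℝ) * ((n : ℝ) ^ θ * ((1 + 1 / n) ^ θ - 1))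
        ≤ (n : ℝ) * ((n : ℝ) ^ θ * (θ * (1 / n))) := by
          gcongr
          linarith
      _ = θ * (n : ℝ) ^ θ := by field_simp

theorem pw_succ_le {θ : ℝ} (h0 : 0 < θ) (h1 : θ ≤ 1) (n : ℕ) :
    ((n : ℝ) + 1) ^ θ - (n : ℝ) ^ θ ≤ 1 := by
  have h := Real.rpow_add_le_add_rpow (a := (n : ℝ)) (b := 1) (Nat.cast_nonneg n) zero_le_one
    h0.le h1
  rw [Real.one_rpow] at h
  linarith

theorem pw_pred {θ : ℝ} (h0 : 0 < θ) (h1 : θ ≤ 1) (n : ℕ) :
    (n : ℝ) * (((n - 1 : ℕ) : ℝ) ^ θ - (n : ℝ) ^ θ) ≤ -(θ * (n : ℝ) ^ θ) := by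
  rcases Nat.eq_zero_or_pos n with hn | hn
  · subst hn
    simp [Real.zero_rpow h0.ne']
  · have hn' : (0 : ℝ) < n := by exact_mod_cast hn
    have hn1 : (1 : ℝ) ≤ n := by exact_mod_cast hn
    have ec : ((n - 1 : ℕ) : ℝ) = (n : ℝ) - 1 := by
      rw [Nat.cast_sub hn]; simp
    have hle : 1 / (n : ℝ) ≤ 1 := by rw [div_le_one hn']; exact hn1
    have e : ((n : ℝ) - 1) ^ θ = (n : ℝ) ^ θ * (1 + -(1 / n)) ^ θ := by
      rw [← Real.mul_rpow hn'.le (by linarith)]
      congr 1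
      field_simp
      ring
    have h2 := rpow_one_add_le_one_add_mul_self (s := -(1 / (n : ℝ))) (by linarith) h0.le h1
    have h3 : 0 ≤ (n : ℝ) ^ θ := by positivity
    rw [ec, e]
    have h4 : (n : ℝ) * ((n : ℝ) ^ θ * (1 + -(1 / n)) ^ θ - (n : ℝ) ^ θ) =
        (n : ℝ) * ((n : ℝ) ^ θ * ((1 + -(1 / n)) ^ θ - 1)) := by ring
    rw [h4]
    calc (n : ℝ) * ((n : ℝ) ^ θ * ((1 + -(1 / n)) ^ θ - 1))
        ≤ (n : ℝ) * ((n : ℝ) ^ θ * (θ * (-(1 / n)))) := by
          gcongr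
          linarith
      _ = -(θ * (n : ℝ) ^ θ) := by field_simp

/-- The supermartingale function. -/
def lyap (θ c : ℝ) (z : State 3 2) : ℝ :=
  (if z.2 = 0 then c else 1) * (z.1 0 : ℝ) ^ θ + (if z.2 = 0 then 1 else c) * (z.1 2 : ℝ) ^ θ +
    c * (z.1 1 : ℝ)

theorem lyap_nonneg {θ c : ℝ} (hc : 1 ≤ c) (z : State 3 2) : 0 ≤ lyap θ c z := by
  unfold lyap
  split_ifs <;> positivity

theorem gen_le {κ θ c : ℝ} (h0 : 0 < θ) (h1 : θ ≤ 1) (hc : 1 ≤ c) (hc2 : c ≤ 2)
    (hκ : κ * (c - 1) = 2 * θ) (z : State 3 2) :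
    ((transitions RR QQ κ z).map fun p => p.1 * (lyap θ c p.2 - lyap θ c z)).sum ≤ 0 := by
  obtain ⟨x, i⟩ := z
  have a0 := pw_succ h0 h1 (x 0)
  have a2 := pw_succ h0 h1 (x 2)
  have b0 := pw_succ_le h0 h1 (x 0)
  have b2 := pw_succ_le h0 h1 (x 2)
  have d0 := pw_pred h0 h1 (x 0)
  have d2 := pw_pred h0 h1 (x 2)
  have p0 : 0 ≤ (x 0 : ℝ) ^ θ := by positivity
  have p2 : 0 ≤ (x 2 : ℝ) ^ θ := by positivity
  have h1x : (x 1 : ℝ) * ((x 1 - 1 : ℕ) : ℝ) = (x 1 : ℝ) * ((x 1 : ℝ) - 1) := by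
    rcases Nat.eq_zero_or_pos (x 1) with hn | hn
    · rw [hn]; simp
    · rw [Nat.cast_sub hn]; simp
  have hx1 : (0 : ℝ) ≤ x 1 := Nat.cast_nonneg _
  fin_cases i
  · change ((transitions RR QQ κ (x, 0)).map fun p =>
      p.1 * (lyap θ c p.2 - lyap θ c (x, 0))).sum ≤ 0
    rw [trans0]
    simp only [List.map_cons, List.map_nil, List.sum_cons, List.sum_nil, lyap, if_true,
      Matrix.cons_val_zero, Matrix.cons_val_one, Matrix.cons_val, one_ne_zero, if_false,
      Nat.cast_add, Nat.cast_one]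
    nlinarith [mul_le_mul_of_nonneg_left a0 (show 0 ≤ c by linarith),
      mul_le_mul_of_nonneg_left (mul_le_mul_of_nonneg_left b0 hx1) (show 0 ≤ c by linarith),
      mul_nonneg h0.le p0, mul_nonneg (mul_nonneg h0.le p0) (show 0 ≤ 2 - c by linarith)]
  · change ((transitions RR QQ κ (x, 1)).map fun p =>
      p.1 * (lyap θ c p.2 - lyap θ c (x, 1))).sum ≤ 0
    rw [trans1]
    simp only [List.map_cons, List.map_nil, List.sum_cons, List.sum_nil, lyap, if_true,
      Matrix.cons_val_zero, Matrix.cons_val_one, Matrix.cons_val, one_ne_zero, if_false,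
      Nat.cast_add, Nat.cast_one]
    nlinarith [mul_le_mul_of_nonneg_left a2 (show 0 ≤ c by linarith),
      mul_le_mul_of_nonneg_left (mul_le_mul_of_nonneg_left b2 hx1) (show 0 ≤ c by linarith),
      mul_nonneg h0.le p2, mul_nonneg (mul_nonneg h0.le p2) (show 0 ≤ 2 - c by linarith)]

theorem total_eq (κ : ℝ) (z : State 3 2) : totalRate RR QQ κ z =
    (if z.2 = 0 then 1 else 2) * (z.1 0 : ℝ) + (z.1 1 : ℝ) +
      (if z.2 = 0 then 2 else 1) * (z.1 2 : ℝ) + κ := by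
  obtain ⟨x, i⟩ := z
  fin_cases i
  · change totalRate RR QQ κ (x, 0) = _
    rw [totalRate, trans0]
    simp
    ring
  · change totalRate RR QQ κ (x, 1) = _
    rw [totalRate, trans1]
    simp
    ring

theorem weights_nonneg {κ : ℝ} (hκ : 0 < κ) (z : State 3 2) :
    ∀ p ∈ transitions RR QQ κ z, 0 ≤ p.1 := by
  obtain ⟨x, i⟩ := z
  fin_cases i
  · change ∀ p ∈ transitions RR QQ κ (x, 0), 0 ≤ p.1
    rw [trans0]
    intro p hp
    simp only [List.mem_cons, List.not_mem_nil, or_false] at hp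
    rcases hp with rfl | rfl | rfl | rfl <;> simp <;> positivity
  · change ∀ p ∈ transitions RR QQ κ (x, 1), 0 ≤ p.1
    rw [trans1]
    intro p hp
    simp only [List.mem_cons, List.not_mem_nil, or_false] at hp
    rcases hp with rfl | rfl | rfl | rfl <;> simp <;> positivity

theorem total_pos {κ : ℝ} (hκ : 0 < κ) (z : State 3 2) : 0 < totalRate RR QQ κ z := by
  rw [total_eq]
  split_ifs <;> positivity

theorem ae_not_escapes {κ : ℝ} (hκ : 0 < κ) (z : State 3 2) :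
    ∀ᵐ ω ∂(Measure.infinitePi fun _ : ℕ => RN.noise), ¬ Escapes RR QQ κ z ω := by
  set θ : ℝ := min (κ / 2) 1 with hθ
  have h0 : 0 < θ := lt_min (by linarith) one_pos
  have h1 : θ ≤ 1 := min_le_right _ _
  have hθκ : θ ≤ κ / 2 := min_le_left _ _
  set c : ℝ := 1 + 2 * θ / κ with hc
  have hc1 : 1 ≤ c := by
    have : 0 ≤ 2 * θ / κ := by positivity
    linarith
  have hc2 : c ≤ 2 := by
    have : 2 * θ / κ ≤ 1 := by rw [div_le_one hκ]; linarith
    linarith
  have hκc : κ * (c - 1) = 2 * θ := by rw [hc]; field_simp; ring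
  let step : State 3 2 → ℝ × ℝ → State 3 2 :=
    fun s p => RN.jump (transitions RR QQ κ s) s p.1
  have hstep : ∀ s, Measurable (step s) := fun s =>
    (RN.pick_measurable s _).comp measurable_fst
  have hV : ∀ s, ∫⁻ p, ENNReal.ofReal (lyap θ c (step s p)) ∂(RN.noise) ≤
      ENNReal.ofReal (lyap θ c s) := fun s =>
    RN.lintegral_jump_le s (transitions RR QQ κ s) (weights_nonneg hκ s) (total_pos hκ s)
      (lyap θ c) (lyap_nonneg hc1) (gen_le h0 h1 hc1 hc2 hκc s)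
  have hb := RN.ae_bounded (ν := RN.noise) hstep z (fun s => ENNReal.ofReal (lyap θ c s)) hV
    ENNReal.ofReal_ne_top
  filter_upwards [hb, RN.ae_nonneg, RN.ae_frequently] with ω hω1 hω2 hω3
  obtain ⟨M, hM⟩ := hω1
  -- bounds on the species counts
  have hY : ∀ k, lyap θ c (jumpChain RR QQ κ z ω k) < M := by
    intro k
    have h2 := hM k
    rw [ENNReal.ofReal_lt_iff_lt_toReal (lyap_nonneg hc1 _) (ENNReal.natCast_ne_top M)] at h2
    rw [ENNReal.toReal_natCast] at h2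
    exact h2
  set b : ℝ := (M : ℝ) ^ (1 / θ) with hbd
  have hM0 : (0 : ℝ) ≤ M := Nat.cast_nonneg M
  have hpow : ∀ n : ℕ, (n : ℝ) ^ θ ≤ M → (n : ℝ) ≤ b := by
    intro n hn
    have h3 : ((n : ℝ) ^ θ) ^ (1 / θ) ≤ (M : ℝ) ^ (1 / θ) :=
      Real.rpow_le_rpow (by positivity) hn (by positivity)
    rwa [← Real.rpow_mul (Nat.cast_nonneg n), mul_one_div_cancel h0.ne', Real.rpow_one] at h3
  have hx : ∀ k, (((jumpChain RR QQ κ z ω k).1 0 : ℕ) : ℝ) ≤ b ∧
      (((jumpChain RR QQ κ z ω k).1 1 : ℕ) : ℝ) ≤ M ∧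
      (((jumpChain RR QQ κ z ω k).1 2 : ℕ) : ℝ) ≤ b := by
    intro k
    have h2 := hY k
    set y := jumpChain RR QQ κ z ω k
    have p0 : 0 ≤ (y.1 0 : ℝ) ^ θ := by positivity
    have p2 : 0 ≤ (y.1 2 : ℝ) ^ θ := by positivity
    have p1 : (0 : ℝ) ≤ y.1 1 := Nat.cast_nonneg _
    have q0 : 0 ≤ (c - 1) * (y.1 0 : ℝ) ^ θ := mul_nonneg (by linarith) p0
    have q1 : 0 ≤ (c - 1) * (y.1 1 : ℝ) := mul_nonneg (by linarith) p1
    have q2 : 0 ≤ (c - 1) * (y.1 2 : ℝ) ^ θ := mul_nonneg (by linarith) p2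
    unfold lyap at h2
    refine ⟨hpow _ ?_, ?_, hpow _ ?_⟩
    · split_ifs at h2 <;> nlinarith
    · split_ifs at h2 <;> nlinarith
    · split_ifs at h2 <;> nlinarith
  have hb0 : 0 ≤ b := by positivity
  have hQ : ∀ k, totalRate RR QQ κ (jumpChain RR QQ κ z ω k) ≤ 4 * b + M + κ := by
    intro k
    obtain ⟨h2, h3, h4⟩ := hx k
    rw [total_eq]
    split_ifs <;> linarith
  have htend := RN.tendsto_times (fun k => (ω k).2)
    (fun k => totalRate RR QQ κ (jumpChain RR QQ κ z ω k)) (4 * b + M + κ) hω2 hω3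
    (fun k => total_pos hκ _) hQ
  intro hesc
  obtain ⟨B, hB⟩ := exists_nat_gt (2 * b + M)
  obtain ⟨t0, ht0⟩ := hesc B
  have hT0 : jumpTime RR QQ κ z ω 0 = 0 := by simp [jumpTime]
  have hex : ∃ k, max t0 0 < jumpTime RR QQ κ z ω k := by
    have h2 := htend.eventually (eventually_gt_atTop (max t0 0))
    exact h2.exists
  classical
  set K := Nat.find hex with hK
  have hKpos : K ≠ 0 := by
    intro h2
    have h3 := Nat.find_spec hex
    rw [← hK, h2, hT0] at h3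
    exact absurd (le_max_right t0 0) (not_le.mpr h3)
  obtain ⟨k, hk⟩ := Nat.exists_eq_succ_of_ne_zero hKpos
  have h2 : jumpTime RR QQ κ z ω k ≤ max t0 0 := by
    by_contra hcon
    exact Nat.find_min hex (m := k) (by rw [← hK, hk]; exact Nat.lt_succ_self k)
      (not_le.mp hcon)
  have h3 : max t0 0 < jumpTime RR QQ κ z ω (k + 1) := by
    have := Nat.find_spec hex
    rw [← hK, hk] at this
    exact this
  have h4 := ht0 (max t0 0) (le_max_left _ _) k h2 (Or.inl h3)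
  have h5 : (B : ℝ) ≤ ∑ m, (((jumpChain RR QQ κ z ω k).1 m : ℕ) : ℝ) := by exact_mod_cast h4
  rw [Fin.sum_univ_three] at h5
  obtain ⟨h6, h7, h8⟩ := hx k
  linarith

/-- The statement in question is false. There are two environments with at-most-monomolecular
reactions on three species, an irreducible rate matrix `Q` and vectors `v^i ≥ 0` with
`(v^i M_i)_m > 0` for all `m ∈ supp(v^i)` and `⋂ supp(v^i) ≠ ∅`, such that for every `κ > 0` no
state at all is evanescent for the mixed process. -/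
theorem result :
    ∃ (d n : ℕ) (R : Fin n → List (Reaction d)) (Q : Matrix (Fin n) (Fin n) ℝ)
      (v : Fin n → Fin d → ℝ),
      (∀ i, ∀ r ∈ R i, 0 < r.c ∧ AtMostMono r) ∧
      (∀ i, ((R i).map fun r => (r.src, r.tgt)).Nodup) ∧
      IsIrredRateMatrix Q ∧
      (∀ i m, 0 ≤ v i m) ∧
      (∀ i m, v i m ≠ 0 → 0 < Matrix.vecMul (v i) (driftMatrix (R i)) m) ∧
      (∃ m, ∀ i, v i m ≠ 0) ∧
      ∀ κ : ℝ, 0 < κ → ∀ z : State d n, ¬ Evanescent R Q κ z := by
  refine ⟨3, 2, RR, QQ, ![![2, 1, 0], ![0, 1, 2]], ?_, ?_, ?_, ?_, ?_, ⟨1, ?_⟩, ?_⟩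
  · intro i r hr
    have e0 : (![1, 0, 0] : Fin 3 → ℕ) = Pi.single 0 1 := by decide
    have e1 : (![0, 1, 0] : Fin 3 → ℕ) = Pi.single 1 1 := by decide
    have e2 : (![0, 0, 1] : Fin 3 → ℕ) = Pi.single 2 1 := by decide
    fin_cases i
    · have hr' : r ∈ R0 := hr
      simp only [R0, List.mem_cons, List.not_mem_nil, or_false] at hr'
      rcases hr' with rfl | rfl | rfl
      · exact ⟨one_pos, Or.inr ⟨0, e0⟩⟩
      · exact ⟨one_pos, Or.inr ⟨1, e1⟩⟩
      · exact ⟨two_pos, Or.inr ⟨2, e2⟩⟩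
    · have hr' : r ∈ R1 := hr
      simp only [R1, List.mem_cons, List.not_mem_nil, or_false] at hr'
      rcases hr' with rfl | rfl | rfl
      · exact ⟨two_pos, Or.inr ⟨0, e0⟩⟩
      · exact ⟨one_pos, Or.inr ⟨1, e1⟩⟩
      · exact ⟨one_pos, Or.inr ⟨2, e2⟩⟩
  · intro i
    fin_cases i
    · change (R0.map fun r => (r.src, r.tgt)).Nodup
      simp only [R0, List.map_cons, List.map_nil]
      decide
    · change (R1.map fun r => (r.src, r.tgt)).Nodup
      simp only [R1, List.map_cons, List.map_nil]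
      decide
  · refine ⟨?_, ?_, ?_⟩
    · intro i j hij
      fin_cases i <;> fin_cases j <;> simp [QQ] at hij ⊢
    · intro i
      fin_cases i <;> simp [QQ]
    · intro i j
      have h01 : (0 : Fin 2) ≠ 1 ∧ 0 < QQ 0 1 := ⟨by decide, by simp [QQ]⟩
      have h10 : (1 : Fin 2) ≠ 0 ∧ 0 < QQ 1 0 := ⟨by decide, by simp [QQ]⟩
      fin_cases i <;> fin_cases j
      · exact Relation.ReflTransGen.refl
      · exact Relation.ReflTransGen.single h01
      · exact Relation.ReflTransGen.single h10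
      · exact Relation.ReflTransGen.refl
  · intro i m
    fin_cases i <;> fin_cases m <;> simp
  · have e0 : ∀ l : Fin 3, ((![1, 0, 0] : Fin 3 → ℕ) = Pi.single l 1) ↔ l = 0 := by decide
    have e1 : ∀ l : Fin 3, ((![0, 1, 0] : Fin 3 → ℕ) = Pi.single l 1) ↔ l = 1 := by decide
    have e2 : ∀ l : Fin 3, ((![0, 0, 1] : Fin 3 → ℕ) = Pi.single l 1) ↔ l = 2 := by decide
    intro i m
    fin_cases i
    · intro hm
      change 0 < Matrix.vecMul (![2, 1, 0] : Fin 3 → ℝ) (driftMatrix R0) m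
      simp only [Matrix.vecMul, dotProduct, Fin.sum_univ_three, driftMatrix, R0, List.map_cons,
        List.map_nil, List.sum_cons, List.sum_nil, e0, e1, e2]
      fin_cases m
      · simp
      · simp
      · simp at hm
    · intro hm
      change 0 < Matrix.vecMul (![0, 1, 2] : Fin 3 → ℝ) (driftMatrix R1) m
      simp only [Matrix.vecMul, dotProduct, Fin.sum_univ_three, driftMatrix, R1, List.map_cons,
        List.map_nil, List.sum_cons, List.sum_nil, e0, e1, e2]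
      fin_cases m
      · simp at hm
      · simp
      · simp
  · intro i
    fin_cases i <;> simp
  · intro κ hκ z hev
    have h := ae_not_escapes hκ z
    rw [ae_iff] at h
    simp only [not_not] at h
    unfold Evanescent at hev
    rw [h] at hev
    exact lt_irrefl _ hev

end

end Pool.Agent.Results.MP_adc20b_pr.NotEvanescent
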